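import Pool.Agent.W507.Wrap.Stmt2

/-!
# The wrapped skyscraper sheaf of an elliptic curve is not a colimit of constructible complexes

`M = ℂ ⧸ L` is the quotient of the plane by a lattice (a discrete subgroup with compact quotient).
`u : C_x ⟶ W` is the wrapping of the skyscraper sheaf: `W` has locally constant cohomology sheaves
(microsupport in the zero section) and is universal with this property. By the theorem of Kuo
quoted in the problem, `W` is the colimit of the geodesic wrapping for every metric.
-/

open CategoryTheory DerivedCategory W507.Wrap

namespace Pool.Agent.Results.MP_cd96da_ag.WrappedSkyscraper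

universe w

theorem result (L : AddSubgroup ℂ) [DiscreteTopology L] [CompactSpace (ℂ ⧸ L)]
    [HasDerivedCategory.{w} (ShC (Tor L))] (x : Tor L) (W : DerivedCategory (ShC (Tor L)))
    (u : deg (Tor L) 0 (skyM x) ⟶ W) (hu : IsWrap u) :
    NotIndConstructible W ∧ NotIndConstructible' W := by
  have := infinite_of_compact L
  exact ⟨notInd_of_hom (hom_of_isWrap hu), notInd'_of_hom (hom_of_isWrap hu)⟩

end Pool.Agent.Results.MP_cd96da_ag.WrappedSkyscraper
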